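import Pool.Agent.H29.FL4.Stmts

/-!
# Board fl4, row ACT (MP_e1ba20)
-/

set_option autoImplicit false

open Matrix MeasureTheory

namespace Pool.FL4

open Pool.FLT

namespace ACT

/-- product in `ℤ[√2]` -/
def ml (x y : ℤ × ℤ) : ℤ × ℤ := (x.1 * y.1 + 2 * (x.2 * y.2), x.1 * y.2 + x.2 * y.1)

/-- value of an element of `ℤ[√2]` -/
noncomputable def ev (j : Fin 4) (x : ℤ × ℤ) : ℝ := x.1 + x.2 * r j

theorem ev_ml {j : Fin 4} (h : r j ^ 2 = 2) (x y : ℤ × ℤ) : ev j (ml x y) = ev j x * ev j y := by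
  simp only [ev, ml]
  push_cast
  linear_combination -((x.2 : ℝ) * y.2 * h)

theorem ev_add (j : Fin 4) (x y : ℤ × ℤ) : ev j (x + y) = ev j x + ev j y := by
  simp only [ev, Prod.fst_add, Prod.snd_add]
  push_cast
  ring

theorem ev_sub (j : Fin 4) (x y : ℤ × ℤ) : ev j (x - y) = ev j x - ev j y := by
  simp only [ev, Prod.fst_sub, Prod.snd_sub]
  push_cast
  ring

theorem ev_mk (j : Fin 4) (a b : ℤ) : ev j (a, b) = a + b * r j := rfl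

end ACT

open ACT in
theorem act (h1 : POSStmt) : ACTStmt := by
  intro i hi s a b c d z hz
  obtain ⟨hr, hy, _⟩ := h1 i hi
  obtain ⟨m, hm⟩ := hz
  obtain ⟨A, hA⟩ : ∃ A : ℤ × ℤ, A = (a, b) := ⟨_, rfl⟩
  obtain ⟨C, hC⟩ : ∃ C : ℤ × ℤ, C = (c, d) := ⟨_, rfl⟩
  obtain ⟨M, hM⟩ : ∃ M : ℤ × ℤ, M = (m 0, m 1) := ⟨_, rfl⟩
  obtain ⟨N, hN⟩ : ∃ N : ℤ × ℤ, N = (m 2, m 3) := ⟨_, rfl⟩
  obtain ⟨B, hB⟩ : ∃ B : ℤ × ℤ, B = (P i, Q i + 1) := ⟨_, rfl⟩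
  obtain ⟨M', hM'⟩ : ∃ M' : ℤ × ℤ, M' = ml A M - ml (s, 0) (ml C (ml M B)) + ml C (ml N (ml B B)) :=
    ⟨_, rfl⟩
  obtain ⟨N', hN'⟩ : ∃ N' : ℤ × ℤ, N' = ml A N + ml C (ml M (ml B B - (1 + s ^ 2, 0))) +
      ml (s, 0) (ml C (ml N B)) := ⟨_, rfl⟩
  refine ⟨![M'.1, M'.2, N'.1, N'.2], fun j => ?_⟩
  have e1 : ev j M' = ev j A * ev j M - s * (ev j C * (ev j M * ev j B)) +
      ev j C * (ev j N * (ev j B * ev j B)) := by
    rw [hM', ev_add, ev_sub]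
    simp only [ev_ml (hr j)]
    rw [ev_mk j s 0]
    push_cast
    ring
  have e2 : ev j N' = ev j A * ev j N + ev j C * (ev j M * (ev j B * ev j B - (1 + s ^ 2))) +
      s * (ev j C * (ev j N * ev j B)) := by
    rw [hN', ev_add, ev_add]
    simp only [ev_ml (hr j), ev_sub]
    rw [ev_mk j s 0, ev_mk j (1 + s ^ 2) 0]
    push_cast
    ring
  have eB : ev j B = be i j := by rw [hB, ev_mk]; simp [be]
  have eA : (a : ℝ) + b * r j = ev j A := by rw [hA, ev_mk]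
  have eC : (c : ℝ) + d * r j = ev j C := by rw [hC, ev_mk]
  have eM : (m 0 : ℝ) + m 1 * r j = ev j M := by rw [hM, ev_mk]
  have eN : (m 2 : ℝ) + m 3 * r j = ev j N := by rw [hN, ev_mk]
  have g1 : ((![M'.1, M'.2, N'.1, N'.2] : Fin 4 → ℤ) 0 : ℝ) +
      ((![M'.1, M'.2, N'.1, N'.2] : Fin 4 → ℤ) 1 : ℝ) * r j = ev j M' := rfl
  have g2 : ((![M'.1, M'.2, N'.1, N'.2] : Fin 4 → ℤ) 2 : ℝ) +
      ((![M'.1, M'.2, N'.1, N'.2] : Fin 4 → ℤ) 3 : ℝ) * r j = ev j N' := rfl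
  rw [g1, g2, e1, e2]
  show z j * ((a + b * r j) + (c + d * r j) * be i j * yy i j) = _
  rw [hm j, eA, eC, eM, eN, ← eB]
  have hyj : yy i j ^ 2 = ev j B ^ 2 - 1 := by rw [eB]; exact hy j
  linear_combination (ev j M * ev j C * ev j B) * hyj

end Pool.FL4
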